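import Pool.Agent.Lib.MP_4ea4c7_an.AsmH

/-!
# MP_4ea4c7_an : local Cauchy data determine every bounded measurable conductivity in the plane (Q1, full answer)

`Ω` is a bounded domain with boundary of class `C^n` (any `n`, in particular `n = ∞`), `Γ` is any nonempty relatively open part of the boundary, the conductivities are in `L^∞(Ω)` and bounded below by a positive constant.
If the local Cauchy data sets on `Γ` are equal, then `γ₁ = γ₂` almost everywhere in `Ω`.
-/

open MeasureTheory Set LocalCalderon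

namespace Pool.Agent.Results.MP_4ea4c7_an.LocalUniqueness

theorem result (n : WithTop ℕ∞) (Ω Γ : Set ℂ) (γ₁ γ₂ : ℂ → ℝ) (hΩ : IsOpen Ω) (hc : IsConnected Ω)
    (hb : Bornology.IsBounded Ω) (hn : HasBoundary n Ω) (hΓ : OpenInBdry Ω Γ) (hΓn : Γ.Nonempty)
    (h1 : IsConductivity Ω γ₁) (h2 : IsConductivity Ω γ₂)
    (h : cauchyData Ω Γ γ₁ = cauchyData Ω Γ γ₂) : γ₁ =ᵐ[volume.restrict Ω] γ₂ :=
  Cal.t_Q1 n Ω Γ γ₁ γ₂ hΩ hc hb hn hΓ hΓn h1 h2 h

end Pool.Agent.Results.MP_4ea4c7_an.LocalUniqueness
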